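import Mathlib
import Pool.Agent.Helper14.FatouDefs
import Pool.Agent.Helper14.Fatou
import Pool.Agent.SLD.PrimeOld
import Pool.Agent.SLD.PrimeUp

set_option autoImplicit false

namespace Pool.Agent.Results.MP_071ec9_an.PrimeShare

open Filter Topology
open Pool.Agent.Helper14 (T f₀ fatouComponent IsWanderingDomain)

/-- The set of integers whose Fatou component is a wandering domain of `f₀`. -/
def W : Set ℤ := {n : ℤ | IsWanderingDomain f₀ (fatouComponent f₀ (n : ℂ))}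

/-- `A` has natural density `d` among the integers of sign `σ` (`σ = 1` or `-1`), and the same
density along every arithmetic progression `σ (q m + r)`, `m = 0, 1, 2, …`. -/
def Dens (σ : ℤ) (A : Set ℤ) (d : ℝ) : Prop :=
  ∀ q r : ℕ, 1 ≤ q → Tendsto (fun x : ℝ =>
    (Set.ncard {m : ℕ | (m : ℝ) ≤ x ∧ σ * (q * m + r) ∈ A} : ℝ) / x) atTop (𝓝 d)

/-- The number of prime numbers `p ≤ x` with `σ p ∈ A`, divided by `x / log x`. -/
noncomputable def relDens (σ : ℤ) (A : Set ℤ) (x : ℝ) : ℝ :=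
  (Set.ncard {p : ℕ | p.Prime ∧ (p : ℝ) ≤ x ∧ σ * (p : ℤ) ∈ A} : ℝ) / (x / Real.log x)

/-- **Primes in invariant sets of the `3x+1` map: the right order of magnitude.** There are absolute constants
`c, C, δ > 0` with the following properties, for each sign `σ = 1, -1`; `relDens σ A x` is the number of
primes `p ≤ x` with `σ p ∈ A`, divided by `x / log x`.
1. If `T n ∈ A ↔ n ∈ A` for all `|n| > K`, and `K ≤ x ^ δ`, then the number of primes `p ≤ x` with `σ p ∈ A` is at most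
`C` times `#{1 ≤ m ≤ x : σ m ∈ A} / log x + x / (log x) ^ 2`.
2. If `A` is such a set (for some `K`), of density `d`, then `c d ≤ relDens σ A x` for all large `x`, and
`relDens σ A x ≤ C b` for all large `x`, for every `b ≥ d`, `b > 0`.
3. If `A` is invariant (`T n ∈ A ↔ n ∈ A` for all `n`) and `a ∈ A` has sign `σ`, then
`c / |a| ≤ relDens σ A x` for all large `x`.
4. No integer of sign `σ` lies in a wandering domain of `f₀` if and only if `relDens σ W x → 0`.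
5. For all `a` of sign `σ`, not divisible by `3`: `c / |a| ≤ relDens σ {n : the orbit of n contains a} x`
for all large `x`. -/
theorem result : ∃ c C δ : ℝ, 0 < c ∧ 0 < C ∧ 0 < δ ∧ ∀ σ : ℤ, |σ| = 1 →
    (∀ (K : ℕ) (A : Set ℤ) (x : ℕ), (∀ n : ℤ, (K : ℤ) < |n| → (T n ∈ A ↔ n ∈ A)) → 2 ≤ x →
      (K : ℝ) ≤ (x : ℝ) ^ δ →
      (Set.ncard {p : ℕ | p.Prime ∧ p ≤ x ∧ σ * (p : ℤ) ∈ A} : ℝ) ≤
        C * ((Set.ncard {m : ℕ | 1 ≤ m ∧ m ≤ x ∧ σ * (m : ℤ) ∈ A} : ℝ) / Real.log x +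
          x / Real.log x ^ 2)) ∧
    (∀ (K : ℕ) (A : Set ℤ) (d : ℝ), (∀ n : ℤ, (K : ℤ) < |n| → (T n ∈ A ↔ n ∈ A)) → Dens σ A d →
      (∀ᶠ x : ℝ in atTop, c * d ≤ relDens σ A x) ∧
      ∀ b : ℝ, d ≤ b → 0 < b → ∀ᶠ x : ℝ in atTop, relDens σ A x ≤ C * b) ∧
    (∀ A : Set ℤ, (∀ n, T n ∈ A ↔ n ∈ A) → ∀ a ∈ A, 0 < σ * a →
      ∀ᶠ x : ℝ in atTop, c / |(a : ℝ)| ≤ relDens σ A x) ∧
    ((∀ n ∈ W, ¬ 0 < σ * n) ↔ Tendsto (relDens σ W) atTop (𝓝 0)) ∧
    (∀ a : ℤ, 0 < σ * a → ¬ (3 : ℤ) ∣ a →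
      ∀ᶠ x : ℝ in atTop, c / |(a : ℝ)| ≤ relDens σ {n : ℤ | ∃ k : ℕ, T^[k] n = a} x) := by
  obtain ⟨c, _, hc, _, hold⟩ := Pool.Agent.SLD.PrimeOld.result
  obtain ⟨C₁, hC₁, hup⟩ := Pool.Agent.SLD.primeUp
  obtain ⟨δ, hδ, C₂, hS⟩ := Pool.Agent.SLD.all_SVP
  refine ⟨c, max C₁ |C₂|, δ, hc, lt_max_of_lt_left hC₁, hδ, fun σ hσ => ?_⟩
  have hs := Pool.Agent.SLD.conv_sign hσ
  obtain ⟨h1, h2, h3, h4⟩ := hold σ hσ
  refine ⟨?_, ?_, h2, h3, h4⟩
  · intro K A x hA hx hK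
    have h := hS σ K A x hs (Pool.Agent.SLD.conv_EvInv hA) hx hK
    rw [Pool.Agent.SLD.conv_N hs A x] at h
    refine h.trans (mul_le_mul_of_nonneg_right ((le_abs_self _).trans (le_max_right _ _)) ?_)
    have hx1 : (1 : ℝ) ≤ x := by exact_mod_cast (by omega : 1 ≤ x)
    have := Real.log_nonneg hx1
    positivity
  · intro K A d hA hd
    refine ⟨(h1 K A d hA hd).1, fun b hdb hb => ?_⟩
    have h := hup σ K A d b hσ hA (Pool.Agent.SLD.conv_dens hs (hd 1 0 le_rfl)) hdb hb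
    filter_upwards [h] with x hx
    exact hx.trans (mul_le_mul_of_nonneg_right (le_max_left _ _) hb.le)

end Pool.Agent.Results.MP_071ec9_an.PrimeShare
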